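import Pool.Agent.Lib.MP_6bc78b_nt.MS.P3.Iface
import Pool.Agent.Lib.MP_6bc78b_nt.MS.P3.H94.Omg

/-! Project MS, Part III, module NB: `NN` is analytic and small. -/

set_option autoImplicit false

open Complex Filter Topology ArithmeticFunction

namespace Pool.Agent.Lib.MP_6bc78b_nt.MS.P3.H84

lemma norm_cpow {p : ℕ} (hp : 0 < p) (z : ℂ) : ‖(p : ℂ) ^ z‖ = (p : ℝ) ^ z.re :=
  Complex.norm_natCast_cpow_of_pos hp z

lemma one_sub_ne {p : ℕ} (hp : p.Prime) {z : ℂ} (hz : z.re < 0) : 1 - (p : ℂ) ^ z ≠ 0 := by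
  intro h
  have h1 : (p : ℂ) ^ z = 1 := (sub_eq_zero.1 h).symm
  have h2 : ‖(p : ℂ) ^ z‖ < 1 := by
    rw [norm_cpow hp.pos]
    exact Real.rpow_lt_one_of_one_lt_of_neg (by exact_mod_cast hp.one_lt) hz
  rw [h1, norm_one] at h2
  exact lt_irrefl _ h2

lemma fp_diff {p : ℕ} (hp : p.Prime) (a : Fin 3 → ℂ) {w : ℂ} (hw : 0 ≤ w.re) {s : ℂ}
    (hs : 0 < s.re) : DifferentiableAt ℂ (fun s => fp p s a w) s := by
  have hpc : (p : ℂ) ≠ 0 := by exact_mod_cast hp.pos.ne'
  have hd : ∀ c : ℂ, DifferentiableAt ℂ (fun s : ℂ => (p : ℂ) ^ (-s - c)) s := fun c =>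
    ((differentiableAt_id.neg).sub_const c).const_cpow (Or.inl hpc)
  have hd0 : DifferentiableAt ℂ (fun s : ℂ => (p : ℂ) ^ (-s)) s :=
    (differentiableAt_id.neg).const_cpow (Or.inl hpc)
  unfold fp hL
  refine (differentiableAt_const _).sub ((differentiableAt_const _).mul ?_)
  refine DifferentiableAt.div ?_ ?_ ?_
  · simp only [Fin.prod_univ_three]
    exact (((differentiableAt_const _).sub (hd (a 0))).mul
      ((differentiableAt_const _).sub (hd (a 1)))).mul ((differentiableAt_const _).sub (hd (a 2)))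
  · exact ((differentiableAt_const _).sub hd0).mul ((differentiableAt_const _).sub (hd w))
  · refine mul_ne_zero (one_sub_ne hp ?_) (one_sub_ne hp ?_)
    · rw [Complex.neg_re]; linarith
    · rw [Complex.sub_re, Complex.neg_re]; linarith

lemma nn_diff (th c1 c2 T : ℝ) (a : Fin 3 → ℂ) {w : ℂ} (hw : 0 ≤ w.re) {s : ℂ}
    (hs : 0 < s.re) : DifferentiableAt ℂ (fun s => NN th c1 c2 T s a w) s := by
  unfold NN
  refine DifferentiableAt.fun_sum (fun m hm => ?_)
  have hm1 : m ≠ 0 := by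
    have := (Finset.mem_Icc.1 hm).1
    omega
  refine DifferentiableAt.mul ((differentiableAt_const _).mul
    ((differentiableAt_id.sub_const 1).const_cpow (Or.inl (by exact_mod_cast hm1)))) ?_
  unfold fm
  refine DifferentiableAt.fun_finsetProd (fun p hp => ?_)
  exact fp_diff (Nat.prime_of_mem_primeFactors hp) a hw hs

lemma betf_bound (th c1 c2 T : ℝ) (hth : 0 < th) (hT : 1 < T) (m : ℕ) (hm : 1 ≤ m) :
    |betf th c1 c2 T m| ≤ |c1| + |c2| := by
  unfold betf
  split_ifs with h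
  · have hl := Real.log_pos hT
    have hm' : (1 : ℝ) ≤ m := by exact_mod_cast hm
    have h1 : 0 ≤ Real.log m / (th * Real.log T) :=
      div_nonneg (Real.log_nonneg hm') (by positivity)
    have h2 : Real.log m / (th * Real.log T) ≤ 1 := by
      rw [div_le_one (by positivity), ← Real.log_rpow (by linarith)]
      exact Real.log_le_log (by linarith) h
    set x := 1 - Real.log m / (th * Real.log T) with hx
    have hx0 : 0 ≤ x := by linarith
    have hx1 : x ≤ 1 := by linarith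
    have hmu : |((ArithmeticFunction.moebius m : ℤ) : ℝ)| ≤ 1 := by
      have := ArithmeticFunction.abs_moebius_le_one (n := m)
      exact_mod_cast this
    rw [abs_mul]
    have hP : |PP c1 c2 x| ≤ |c1| + |c2| := by
      unfold PP
      have h3 : |c1 * x| ≤ |c1| := by
        rw [abs_mul, abs_of_nonneg hx0]
        exact mul_le_of_le_one_right (abs_nonneg _) hx1
      have h4 : |c2 * x ^ 2| ≤ |c2| := by
        rw [abs_mul, abs_of_nonneg (by positivity : (0 : ℝ) ≤ x ^ 2)]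
        exact mul_le_of_le_one_right (abs_nonneg _) (pow_le_one₀ hx0 hx1)
      exact (abs_add_le _ _).trans (add_le_add h3 h4)
    calc |((ArithmeticFunction.moebius m : ℤ) : ℝ)| * |PP c1 c2 x| ≤ 1 * (|c1| + |c2|) :=
          mul_le_mul hmu hP (abs_nonneg _) zero_le_one
      _ = |c1| + |c2| := one_mul _
  · rw [abs_zero]; positivity

lemma harm (M : ℕ) : ∑ m ∈ Finset.Icc 1 M, (1 : ℝ) / m ≤ 1 + Real.log M := by
  have h := harmonic_le_one_add_log M
  have h2 : ((harmonic M : ℚ) : ℝ) = ∑ m ∈ Finset.Icc 1 M, (1 : ℝ) / m := by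
    rw [harmonic_eq_sum_Icc]
    push_cast
    exact Finset.sum_congr rfl (fun i _ => by rw [one_div])
  rwa [h2] at h

lemma fm_bound {Cf : ℝ} (hCf0 : 0 < Cf)
    (hCf : ∀ p : ℕ, p.Prime → ∀ (σ : ℝ) (s w : ℂ) (a : Fin 3 → ℂ),
      7 / 10 ≤ σ → σ ≤ 1 → σ ≤ s.re → (∀ i, σ ≤ (s + a i).re) → σ ≤ (s + w).re →
      ‖fp p s a w‖ ≤ Cf * (p : ℝ) ^ (-σ))
    {T : ℝ} (hT : Real.exp 5 ≤ T) {A : Fin 3 → ℂ} (hA : A ∈ pd) {W : ℂ} (hW : W.re = 2)
    {s : ℂ} (hs : 3 / 4 ≤ s.re) {m : ℕ} (hm : 1 ≤ m) (hmT : (m : ℝ) ≤ T) (hsq : Squarefree m) :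
    ‖fm m s (sc T A) (W / Real.log T)‖ ≤
      (2 * Cf) ^ m.primeFactors.card * (m : ℝ) ^ (-(3 / 4) : ℝ) := by
  have hT0 : 0 < T := (Real.exp_pos 5).trans_le hT
  have hL : 5 ≤ Real.log T := (Real.le_log_iff_exp_le hT0).2 hT
  have hL0 : 0 < Real.log T := by linarith
  have hloc : ∀ p ∈ m.primeFactors, ‖fp p s (sc T A) (W / Real.log T)‖ ≤
      2 * Cf * (p : ℝ) ^ (-(3 / 4) : ℝ) := by
    intro p hp
    have hpp := Nat.prime_of_mem_primeFactors hp
    have hp1 : (1 : ℝ) ≤ p := by exact_mod_cast hpp.one_lt.le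
    have hp0 : (0 : ℝ) < p := by linarith
    have hpT : (p : ℝ) ≤ T :=
      le_trans (by exact_mod_cast Nat.le_of_dvd hm (Nat.dvd_of_mem_primeFactors hp)) hmT
    have h4 : 1 / (4 * Real.log T) ≤ 1 / 20 :=
      one_div_le_one_div_of_le (by norm_num) (by linarith)
    have h40 : 0 < 1 / (4 * Real.log T) := by positivity
    have hb := hCf p hpp (3 / 4 - 1 / (4 * Real.log T)) s (W / Real.log T) (sc T A)
      (by linarith) (by linarith) (by linarith) ?_ ?_
    · refine hb.trans ?_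
      have e1 : (p : ℝ) ^ (-(3 / 4 - 1 / (4 * Real.log T))) =
          (p : ℝ) ^ (-(3 / 4) : ℝ) * (p : ℝ) ^ (1 / (4 * Real.log T)) := by
        rw [← Real.rpow_add hp0]; congr 1; ring
      have e2 : (p : ℝ) ^ (1 / (4 * Real.log T)) ≤ 2 := by
        calc (p : ℝ) ^ (1 / (4 * Real.log T)) ≤ T ^ (1 / (4 * Real.log T)) :=
              Real.rpow_le_rpow hp0.le hpT h40.le
          _ = Real.exp (1 / 4) := by
              rw [Real.rpow_def_of_pos hT0]
              congr 1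
              field_simp
          _ ≤ 2 := by
              have h5 : Real.exp (1 / 4) ≤ Real.exp 1 := Real.exp_le_exp.2 (by norm_num)
              have h6 : Real.exp (1 / 4) ^ 4 = Real.exp 1 := by
                rw [← Real.exp_nat_mul]; norm_num
              have h7 : Real.exp 1 < 2.7182818286 := Real.exp_one_lt_d9
              by_contra hcon
              rw [not_le] at hcon
              have h8 : (2 : ℝ) ^ 4 < Real.exp (1 / 4) ^ 4 :=
                pow_lt_pow_left₀ hcon (by norm_num) (by norm_num)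
              rw [h6] at h8
              norm_num at h8
              linarith
      rw [e1]
      have h9 : 0 ≤ Cf * (p : ℝ) ^ (-(3 / 4) : ℝ) := by positivity
      nlinarith [mul_le_mul_of_nonneg_left e2 h9]
    · intro i
      have h5 : |(A i).re| ≤ 1 / 4 := (Complex.abs_re_le_norm _).trans (hA i)
      have h6 : (sc T A i).re = (A i).re / Real.log T := by
        unfold sc
        rw [Complex.div_ofReal_re]
      rw [Complex.add_re, h6]
      have h7 : -(1 / 4) / Real.log T ≤ (A i).re / Real.log T :=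
        div_le_div_of_nonneg_right (abs_le.1 h5).1 hL0.le
      have h8 : -(1 / 4) / Real.log T = -(1 / (4 * Real.log T)) := by field_simp
      linarith
    · rw [Complex.add_re, Complex.div_ofReal_re, hW]
      have : 0 < 2 / Real.log T := by positivity
      linarith
  unfold fm
  rw [norm_prod]
  refine (Finset.prod_le_prod (fun _ _ => norm_nonneg _) hloc).trans ?_
  rw [Finset.prod_mul_distrib, Finset.prod_const,
    Real.finsetProd_rpow _ _ (fun p _ => Nat.cast_nonneg p), ← Nat.cast_prod,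
    Nat.prod_primeFactors_of_squarefree hsq]

/-- (NB) -/
theorem nb (h : FpbStatement) : NbStatement := by
  obtain ⟨Cf, hCf0, hCf⟩ := h
  intro th c1 c2 hth0 hth1
  obtain ⟨K, hK0, hK⟩ := H94.omg (2 * Cf) (1 / 50) (by norm_num)
  obtain ⟨B, hB⟩ : ∃ B : ℝ, B = |c1| + |c2| := ⟨_, rfl⟩
  have hB0 : 0 ≤ B := by rw [hB]; positivity
  refine ⟨(B + 1) * K * 101, Real.exp 5, by positivity, fun T hT A hA W hW => ?_⟩
  have hT0 : 0 < T := (Real.exp_pos 5).trans_le hT
  have hT1 : 1 < T := lt_of_lt_of_le (Real.one_lt_exp_iff.2 (by norm_num)) hT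
  have hL : 5 ≤ Real.log T := (Real.le_log_iff_exp_le hT0).2 hT
  have hL0 : 0 < Real.log T := by linarith
  -- termwise bound
  have hterm : ∀ s : ℂ, 3 / 4 ≤ s.re → ∀ m ∈ Finset.Icc 1 ⌊T ^ th⌋₊,
      ‖(betf th c1 c2 T m : ℂ) * (m : ℂ) ^ (s - 1) * fm m s (sc T A) (W / Real.log T)‖ ≤
        B * K * ((m : ℝ) ^ (s.re - 1) * (m : ℝ) ^ (1 / 50 : ℝ) * (m : ℝ) ^ (-(3 / 4) : ℝ)) := by
    intro s hs m hm
    obtain ⟨hm1, hm2⟩ := Finset.mem_Icc.1 hm
    have hmT' : (m : ℝ) ≤ T ^ th := (Nat.le_floor_iff (by positivity)).1 hm2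
    have hmT : (m : ℝ) ≤ T := hmT'.trans (by
      calc T ^ th ≤ T ^ (1 : ℝ) := Real.rpow_le_rpow_of_exponent_le hT1.le (by linarith)
        _ = T := Real.rpow_one T)
    by_cases hsq : Squarefree m
    · rw [norm_mul, norm_mul, Complex.norm_real, norm_cpow (by omega)]
      have h1 := betf_bound th c1 c2 T hth0 hT1 m hm1
      rw [← hB] at h1
      have h2 := fm_bound hCf0 (fun p hp σ s w a h1 h2 h3 h4 h5 =>
        (hCf p hp σ s w a h1 h2 h3 h4 h5).1) hT hA hW hs hm1 hmT hsq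
      have h3 := hK m hm1
      have e1 : (s - 1).re = s.re - 1 := by simp
      rw [e1, Real.norm_eq_abs]
      have h4 : ‖fm m s (sc T A) (W / Real.log T)‖ ≤
          K * (m : ℝ) ^ (1 / 50 : ℝ) * (m : ℝ) ^ (-(3 / 4) : ℝ) :=
        h2.trans (mul_le_mul_of_nonneg_right h3 (by positivity))
      calc |betf th c1 c2 T m| * (m : ℝ) ^ (s.re - 1) * ‖fm m s (sc T A) (W / Real.log T)‖
          ≤ B * (m : ℝ) ^ (s.re - 1) *
            (K * (m : ℝ) ^ (1 / 50 : ℝ) * (m : ℝ) ^ (-(3 / 4) : ℝ)) := by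
            refine mul_le_mul (mul_le_mul_of_nonneg_right h1 (by positivity)) h4
              (norm_nonneg _) (by positivity)
        _ = _ := by ring
    · have h0 : betf th c1 c2 T m = 0 := by
        unfold betf
        rw [ArithmeticFunction.moebius_eq_zero_of_not_squarefree hsq]
        simp
      rw [h0]
      simp only [Complex.ofReal_zero, zero_mul, norm_zero]
      positivity
  refine ⟨fun s hs => nn_diff th c1 c2 T _ ?_ (by linarith), fun s hs => ?_, fun s hs hs2 => ?_⟩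
  · rw [Complex.div_ofReal_re, hW]; positivity
  · -- the line 3/4
    unfold NN
    refine (norm_sum_le _ _).trans ((Finset.sum_le_sum (hterm s hs.ge)).trans ?_)
    rw [← Finset.mul_sum]
    have h1 : ∑ m ∈ Finset.Icc 1 ⌊T ^ th⌋₊,
        (m : ℝ) ^ (s.re - 1) * (m : ℝ) ^ (1 / 50 : ℝ) * (m : ℝ) ^ (-(3 / 4) : ℝ) ≤
        T ^ (1 / 100 : ℝ) * (1 + Real.log T) := by
      have h2 : ∀ m ∈ Finset.Icc 1 ⌊T ^ th⌋₊,
          (m : ℝ) ^ (s.re - 1) * (m : ℝ) ^ (1 / 50 : ℝ) * (m : ℝ) ^ (-(3 / 4) : ℝ) ≤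
          T ^ (1 / 100 : ℝ) * (1 / (m : ℝ)) := by
        intro m hm
        obtain ⟨hm1, hm2⟩ := Finset.mem_Icc.1 hm
        have hm0 : (0 : ℝ) < m := by exact_mod_cast hm1
        have hmT' : (m : ℝ) ≤ T ^ th := (Nat.le_floor_iff (by positivity)).1 hm2
        have e1 : (m : ℝ) ^ (s.re - 1) * (m : ℝ) ^ (1 / 50 : ℝ) * (m : ℝ) ^ (-(3 / 4) : ℝ) =
            (m : ℝ) ^ (1 / 50 : ℝ) * (1 / (m : ℝ)) := by
          rw [hs]
          have e2 : (1 : ℝ) / m = (m : ℝ) ^ (3 / 4 - 1 : ℝ) * (m : ℝ) ^ (-(3 / 4) : ℝ) := by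
            rw [← Real.rpow_add hm0, one_div, ← Real.rpow_neg_one]; norm_num
          rw [e2]; ring
        rw [e1]
        refine mul_le_mul_of_nonneg_right ?_ (by positivity)
        calc (m : ℝ) ^ (1 / 50 : ℝ) ≤ (T ^ th) ^ (1 / 50 : ℝ) :=
              Real.rpow_le_rpow hm0.le hmT' (by norm_num)
          _ = T ^ (th * (1 / 50)) := by rw [← Real.rpow_mul hT0.le]
          _ ≤ T ^ (1 / 100 : ℝ) := Real.rpow_le_rpow_of_exponent_le hT1.le (by linarith)
      refine (Finset.sum_le_sum h2).trans ?_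
      rw [← Finset.mul_sum]
      refine mul_le_mul_of_nonneg_left ((harm _).trans ?_) (by positivity)
      have h3 : Real.log (⌊T ^ th⌋₊ : ℝ) ≤ Real.log T := by
        have h1T : 1 ≤ T ^ th := Real.one_le_rpow hT1.le hth0.le
        have h4 : (1 : ℕ) ≤ ⌊T ^ th⌋₊ := Nat.le_floor (by simpa using h1T)
        refine Real.log_le_log (by exact_mod_cast h4) ?_
        refine (Nat.floor_le (by positivity)).trans ?_
        calc T ^ th ≤ T ^ (1 : ℝ) := Real.rpow_le_rpow_of_exponent_le hT1.le (by linarith)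
          _ = T := Real.rpow_one T
      linarith
    have h5 : 1 + Real.log T ≤ 101 * T ^ (1 / 100 : ℝ) := by
      have h6 := Real.log_le_rpow_div hT0.le (show (0 : ℝ) < 1 / 100 by norm_num)
      have h7 : 1 ≤ T ^ (1 / 100 : ℝ) := Real.one_le_rpow hT1.le (by norm_num)
      have h8 : T ^ (1 / 100 : ℝ) / (1 / 100) = 100 * T ^ (1 / 100 : ℝ) := by ring
      linarith
    have h9 : T ^ (1 / 50 : ℝ) = T ^ (1 / 100 : ℝ) * T ^ (1 / 100 : ℝ) := by
      rw [← Real.rpow_add hT0]; norm_num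
    have hx0 : 0 < T ^ (1 / 100 : ℝ) := by positivity
    calc B * K * _ ≤ B * K * (T ^ (1 / 100 : ℝ) * (101 * T ^ (1 / 100 : ℝ))) := by
          refine mul_le_mul_of_nonneg_left (h1.trans ?_) (by positivity)
          exact mul_le_mul_of_nonneg_left h5 hx0.le
      _ ≤ (B + 1) * K * 101 * T ^ (1 / 50 : ℝ) := by
          rw [h9]
          nlinarith [mul_pos hK0 (mul_pos hx0 hx0)]
  · -- the strip
    unfold NN
    refine (norm_sum_le _ _).trans ((Finset.sum_le_sum (hterm s hs)).trans ?_)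
    rw [← Finset.mul_sum]
    have h1 : ∑ m ∈ Finset.Icc 1 ⌊T ^ th⌋₊,
        (m : ℝ) ^ (s.re - 1) * (m : ℝ) ^ (1 / 50 : ℝ) * (m : ℝ) ^ (-(3 / 4) : ℝ) ≤ T := by
      have h2 : ∀ m ∈ Finset.Icc 1 ⌊T ^ th⌋₊,
          (m : ℝ) ^ (s.re - 1) * (m : ℝ) ^ (1 / 50 : ℝ) * (m : ℝ) ^ (-(3 / 4) : ℝ) ≤
          T ^ (1 / 2 : ℝ) := by
        intro m hm
        obtain ⟨hm1, hm2⟩ := Finset.mem_Icc.1 hm
        have hm0 : (0 : ℝ) < m := by exact_mod_cast hm1
        have hm1' : (1 : ℝ) ≤ m := by exact_mod_cast hm1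
        have hmT' : (m : ℝ) ≤ T ^ th := (Nat.le_floor_iff (by positivity)).1 hm2
        rw [← Real.rpow_add hm0, ← Real.rpow_add hm0]
        calc (m : ℝ) ^ (s.re - 1 + 1 / 50 + -(3 / 4)) ≤ (m : ℝ) ^ (1 : ℝ) :=
              Real.rpow_le_rpow_of_exponent_le hm1' (by linarith)
          _ = m := Real.rpow_one _
          _ ≤ T ^ th := hmT'
          _ ≤ T ^ (1 / 2 : ℝ) := Real.rpow_le_rpow_of_exponent_le hT1.le hth1.le
      refine (Finset.sum_le_sum h2).trans ?_
      rw [Finset.sum_const, Nat.card_Icc, nsmul_eq_mul]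
      have h3 : ((⌊T ^ th⌋₊ + 1 - 1 : ℕ) : ℝ) ≤ T ^ (1 / 2 : ℝ) := by
        rw [Nat.add_sub_cancel]
        exact (Nat.floor_le (by positivity)).trans
          (Real.rpow_le_rpow_of_exponent_le hT1.le hth1.le)
      calc ((⌊T ^ th⌋₊ + 1 - 1 : ℕ) : ℝ) * T ^ (1 / 2 : ℝ) ≤
            T ^ (1 / 2 : ℝ) * T ^ (1 / 2 : ℝ) :=
            mul_le_mul_of_nonneg_right h3 (by positivity)
        _ = T := by rw [← Real.rpow_add hT0]; norm_num
    calc B * K * _ ≤ B * K * T := mul_le_mul_of_nonneg_left h1 (by positivity)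
      _ ≤ (B + 1) * K * 101 * T := by nlinarith [mul_pos hK0 hT0, mul_nonneg hB0 (mul_pos hK0 hT0).le]

end Pool.Agent.Lib.MP_6bc78b_nt.MS.P3.H84
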